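import Pool.Agent.R81.UDC.Rec
import Pool.Agent.R80.UB.Uniform

/-!
`C(k+a, a) t(k, k+a) ≤ 4 + 10 a log (3a)` for all `k ≥ 2`, `a ≥ 1`.
-/

set_option autoImplicit false

open Finset Filter Topology

namespace Pool.Agent.R81.UDC

open Pool.Agent.H688R3.TuranGen

theorem TT_eq {n k r : ℕ} (hrk : r ≤ k) : (Pool.Agent.TH173.RT.TT n k r : ℝ) = c r k n := by
  apply le_antisymm
  · obtain ⟨F, hF, hc⟩ := exists_cov (r := r) (m := k) hrk n
    rw [← hc]
    have : Pool.Agent.TH173.RT.TT n k r ≤ F.card := Pool.Agent.TH173.RT.TT_le ⟨hF.1, hF.2⟩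
    exact_mod_cast this
  · obtain ⟨E, hE, hc⟩ := Pool.Agent.TH173.RT.TT_spec (n := n) hrk
    rw [← hc]
    exact c_le_card ⟨hE.1, hE.2⟩

theorem dens_t {k r : ℕ} (hrk : r ≤ k) : Pool.Agent.TH173.RT.Dens k r (t r k) := by
  unfold Pool.Agent.TH173.RT.Dens
  refine (tendsto_c r k).congr fun n => ?_
  rw [TT_eq hrk]

/-- the normalised density -/
noncomputable def B (a k : ℕ) : ℝ := ((k + a).choose a : ℝ) * t k (k + a)

theorem base {a k : ℕ} (ha : 1 ≤ a) (hk : 2 ≤ k) :
    B a k ≤ 4 + 5 * a * Real.log ((k : ℝ) + a) := by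
  have h := Pool.Agent.TH173.RT.dens_upper2 (k := k + a) (s := k) hk (by omega)
    (dens_t (by omega))
  have hC : (0 : ℝ) < ((k + a).choose k : ℝ) := by
    exact_mod_cast Nat.choose_pos (show k ≤ k + a by omega)
  rw [le_div_iff₀ hC] at h
  have e1 : k + a - k = a := by omega
  rw [e1] at h
  push_cast at h
  unfold B
  have e2 : (k + a).choose a = (k + a).choose k := by
    rw [Nat.choose_symm_add]
  rw [e2, mul_comm]
  exact h

theorem upper52 {a k : ℕ} (ha : 1 ≤ a) (hk : 2 ≤ k) : B a k ≤ 52 * a * Real.log k := by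
  have h := Pool.Agent.R80.UB.dens_le (k := k + a) (r := k) hk (by omega) (dens_t (by omega))
  have hC : (0 : ℝ) < ((k + a).choose k : ℝ) := by
    exact_mod_cast Nat.choose_pos (show k ≤ k + a by omega)
  rw [le_div_iff₀ hC] at h
  have e2 : (k + a).choose a = (k + a).choose k := by
    rw [Nat.choose_symm_add]
  unfold B
  rw [e2, mul_comm]
  refine h.trans (le_of_eq ?_)
  push_cast
  ring

theorem choose_ratio {k r : ℕ} (hrk : r ≤ k) (a : ℕ) :
    (k + a).choose a * (r + 1) ^ a ≤ (r + a).choose a * (k + 1) ^ a := by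
  induction a with
  | zero => simp
  | succ a ih =>
    have h1 : ∀ x : ℕ, (x + (a + 1)).choose (a + 1) * (a + 1) = (x + a).choose a * (x + a + 1) := by
      intro x
      have := Nat.add_one_mul_choose_eq (x + a) a
      have e : x + (a + 1) = x + a + 1 := by ring
      rw [e]
      linarith
    have h2 : (k + a + 1) * (r + 1) ≤ (r + a + 1) * (k + 1) := by nlinarith
    have h3 : (a + 1) * ((k + (a + 1)).choose (a + 1) * (r + 1) ^ (a + 1)) ≤
        (a + 1) * ((r + (a + 1)).choose (a + 1) * (k + 1) ^ (a + 1)) := by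
      calc (a + 1) * ((k + (a + 1)).choose (a + 1) * (r + 1) ^ (a + 1))
          = ((k + (a + 1)).choose (a + 1) * (a + 1)) * (r + 1) ^ (a + 1) := by ring
        _ = ((k + a).choose a * (r + 1) ^ a) * ((k + a + 1) * (r + 1)) := by rw [h1]; ring
        _ ≤ ((r + a).choose a * (k + 1) ^ a) * ((r + a + 1) * (k + 1)) := Nat.mul_le_mul ih h2
        _ = ((r + (a + 1)).choose (a + 1) * (a + 1)) * (k + 1) ^ (a + 1) := by rw [h1]; ring
        _ = _ := by ring
    exact Nat.le_of_mul_le_mul_left h3 (by omega)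

theorem choose_ratio' {k r : ℕ} (hrk : r ≤ k) (a : ℕ) :
    ((k + a).choose a : ℝ) ≤ (((k : ℝ) + 1) / ((r : ℝ) + 1)) ^ a * ((r + a).choose a : ℝ) := by
  have h := choose_ratio hrk a
  have h' : ((k + a).choose a : ℝ) * ((r : ℝ) + 1) ^ a ≤
      ((r + a).choose a : ℝ) * ((k : ℝ) + 1) ^ a := by exact_mod_cast h
  have hr : (0 : ℝ) < (r : ℝ) + 1 := by positivity
  rw [div_pow, div_mul_eq_mul_div, le_div_iff₀ (by positivity)]
  linarith

theorem log_three : (1.09 : ℝ) ≤ Real.log 3 := by
  rw [Real.le_log_iff_exp_le (by norm_num)]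
  have h : Real.exp 1.09 ^ 100 ≤ 3 ^ 100 := by
    rw [← Real.exp_nat_mul]
    have e : ((100 : ℕ) : ℝ) * 1.09 = ((109 : ℕ) : ℝ) * 1 := by norm_num
    rw [e, Real.exp_nat_mul]
    have h1 : Real.exp 1 ≤ 2.7182818286 := Real.exp_one_lt_d9.le
    calc Real.exp 1 ^ 109 ≤ 2.7182818286 ^ 109 := pow_le_pow_left₀ (Real.exp_pos _).le h1 _
      _ ≤ 3 ^ 100 := by norm_num
  exact (pow_le_pow_iff_left₀ (Real.exp_pos _).le (by norm_num) (by norm_num)).1 h

/-- **The main bound.** -/
theorem B_le {a : ℕ} (ha : 1 ≤ a) : ∀ k : ℕ, 2 ≤ k → B a k ≤ 4 + 10 * a * Real.log (3 * a) := by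
  intro k
  induction k using Nat.strong_induction_on with
  | _ k ih =>
    intro hk
    have haR : (1 : ℝ) ≤ a := by exact_mod_cast ha
    have hlog3 := log_three
    have hl3a : (1.09 : ℝ) ≤ Real.log (3 * a) := by
      refine hlog3.trans (Real.log_le_log (by norm_num) ?_)
      linarith
    rcases le_or_gt (k + a) (9 * a ^ 2) with hsm | hbig
    · refine (base ha hk).trans ?_
      have h1 : Real.log ((k : ℝ) + a) ≤ 2 * Real.log (3 * a) := by
        have h2 : (k : ℝ) + a ≤ (3 * (a : ℝ)) ^ 2 := by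
          have : ((k + a : ℕ) : ℝ) ≤ ((9 * a ^ 2 : ℕ) : ℝ) := by exact_mod_cast hsm
          push_cast at this
          nlinarith
        have h3 : Real.log ((k : ℝ) + a) ≤ Real.log ((3 * (a : ℝ)) ^ 2) :=
          Real.log_le_log (by positivity) h2
        rw [Real.log_pow] at h3
        exact_mod_cast h3
      nlinarith
    · -- the recursion
      have hk8 : 8 * a ^ 2 < k := by nlinarith
      have hk8' : 8 * a ≤ k := by nlinarith
      set r₂ : ℕ := k / (4 * a) with hr₂
      have h4a : 0 < 4 * a := by omega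
      have hr2a : 2 * a ≤ r₂ := by
        rw [hr₂, Nat.le_div_iff_mul_le h4a]
        nlinarith
      have hr2b : r₂ * (4 * a) ≤ k := Nat.div_mul_le_self _ _
      have hr2c : k + 1 ≤ (4 * a) * (r₂ + 1) := Nat.lt_mul_div_succ k h4a
      have hr2d : 4 * r₂ ≤ k := by nlinarith
      obtain ⟨r₁, hr₁⟩ : ∃ r₁, k = r₁ + a + r₂ := ⟨k - a - r₂, by omega⟩
      have hr2k : r₂ < k := by omega
      have hr1b : 5 * k ≤ 8 * r₁ := by omega
      have hrec := fun (p : ℝ) (h0 : 0 ≤ p) (h1 : p ≤ 1) =>
        t_rec (a := a) (r₁ := r₁) (r₂ := r₂) h0 h1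
      have hk2 : r₁ + r₂ + 2 * a = k + a := by omega
      rw [← hr₁, hk2] at hrec
      have hIH := ih r₂ hr2k (by omega)
      set M : ℝ := 4 + 10 * a * Real.log (3 * a) with hM
      have hM0 : 0 ≤ M := by
        rw [hM]
        have : 0 ≤ Real.log (3 * (a : ℝ)) := by linarith
        positivity
      set C1 : ℝ := ((r₁ + a).choose a : ℝ) with hC1
      set C2 : ℝ := ((r₂ + a).choose a : ℝ) with hC2
      set CC : ℝ := ((k + a).choose a : ℝ) with hCC
      have hC1p : 0 < C1 := by
        rw [hC1]; exact_mod_cast Nat.choose_pos (show a ≤ r₁ + a by omega)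
      have hC2p : 0 < C2 := by
        rw [hC2]; exact_mod_cast Nat.choose_pos (show a ≤ r₂ + a by omega)
      have hCCp : 0 < CC := by
        rw [hCC]; exact_mod_cast Nat.choose_pos (show a ≤ k + a by omega)
      have hkR : (8 : ℝ) * (a : ℝ) ^ 2 < k := by exact_mod_cast hk8
      have hr1R : (5 : ℝ) * k ≤ 8 * r₁ := by exact_mod_cast hr1b
      -- first ratio
      have hrat1 : CC ≤ 2 * C1 := by
        refine (choose_ratio' (show r₁ ≤ k by omega) a).trans ?_
        apply mul_le_mul_of_nonneg_right _ hC1p.le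
        have e1 : ((k : ℝ) + 1) / ((r₁ : ℝ) + 1) = 1 + ((a : ℝ) + r₂) / ((r₁ : ℝ) + 1) := by
          have : (k : ℝ) = r₁ + a + r₂ := by exact_mod_cast hr₁
          rw [this]
          have : (0 : ℝ) < (r₁ : ℝ) + 1 := by positivity
          field_simp
          ring
        have e2 : 1 + ((a : ℝ) + r₂) / ((r₁ : ℝ) + 1) ≤
            Real.exp (((a : ℝ) + r₂) / ((r₁ : ℝ) + 1)) := by
          have := Real.add_one_le_exp (((a : ℝ) + r₂) / ((r₁ : ℝ) + 1))
          linarith
        have e3 : (a : ℝ) * (((a : ℝ) + r₂) / ((r₁ : ℝ) + 1)) ≤ 3 / 5 := by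
          have hr1p : (0 : ℝ) < (r₁ : ℝ) + 1 := by positivity
          rw [← mul_div_assoc, div_le_div_iff₀ hr1p (by norm_num)]
          have h5 : (r₂ : ℝ) * (4 * a) ≤ k := by exact_mod_cast hr2b
          nlinarith
        calc (((k : ℝ) + 1) / ((r₁ : ℝ) + 1)) ^ a
            ≤ Real.exp (((a : ℝ) + r₂) / ((r₁ : ℝ) + 1)) ^ a := by
              rw [e1]
              exact pow_le_pow_left₀ (by positivity) e2 a
          _ = Real.exp ((a : ℝ) * (((a : ℝ) + r₂) / ((r₁ : ℝ) + 1))) := by
              rw [← Real.exp_nat_mul]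
          _ ≤ Real.exp (3 / 5) := Real.exp_le_exp.2 e3
          _ ≤ 2 := by
              have h6 : Real.exp (3 / 5) ^ 5 ≤ 2 ^ 5 := by
                rw [← Real.exp_nat_mul]
                have e : ((5 : ℕ) : ℝ) * (3 / 5) = ((3 : ℕ) : ℝ) * 1 := by norm_num
                rw [e, Real.exp_nat_mul]
                calc Real.exp 1 ^ 3 ≤ 2.7182818286 ^ 3 :=
                      pow_le_pow_left₀ (Real.exp_pos _).le Real.exp_one_lt_d9.le _
                  _ ≤ 2 ^ 5 := by norm_num
              exact (pow_le_pow_iff_left₀ (Real.exp_pos _).le (by norm_num) (by norm_num)).1 h6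
      -- second ratio
      have hrat2 : CC ≤ (4 * (a : ℝ)) ^ a * C2 := by
        refine (choose_ratio' (show r₂ ≤ k by omega) a).trans ?_
        apply mul_le_mul_of_nonneg_right _ hC2p.le
        apply pow_le_pow_left₀ (by positivity)
        rw [div_le_iff₀ (by positivity)]
        exact_mod_cast hr2c
      -- the probability
      set x : ℝ := a * Real.log (4 * a) + 2 with hx
      have hl4a : Real.log (4 * (a : ℝ)) ≤ Real.log (3 * a) + 1 / 3 := by
        have h7 : Real.log (4 * (a : ℝ)) = Real.log (3 * a) + Real.log (4 / 3) := by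
          rw [← Real.log_mul (by positivity) (by norm_num)]
          congr 1
          ring
        have h8 : Real.log (4 / 3 : ℝ) ≤ 4 / 3 - 1 := Real.log_le_sub_one_of_pos (by norm_num)
        linarith
      have hl4a0 : 0 ≤ Real.log (4 * (a : ℝ)) := Real.log_nonneg (by linarith)
      have hx0 : 0 ≤ x := by positivity
      have hxC : x ≤ C1 := by
        have h7 : Real.log (4 * (a : ℝ)) ≤ 4 * a - 1 :=
          Real.log_le_sub_one_of_pos (by positivity)
        have h8 : (r₁ : ℝ) + 1 ≤ C1 := by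
          rw [hC1]
          have h9 : r₁ + 1 ≤ (r₁ + a).choose a := by
            have h10 : (r₁ + a).choose a = (r₁ + a).choose r₁ := by rw [Nat.choose_symm_add]
            have h11 : (r₁ + 1).choose r₁ ≤ (r₁ + a).choose r₁ :=
              Nat.choose_le_choose _ (by omega)
            rw [Nat.choose_succ_self_right] at h11
            omega
          exact_mod_cast h9
        have h12 : x ≤ 4 * (a : ℝ) ^ 2 - a + 2 := by
          rw [hx]
          nlinarith
        nlinarith
      have hp0 : 0 ≤ x / C1 := by positivity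
      have hp1 : x / C1 ≤ 1 := by rw [div_le_one hC1p]; exact hxC
      have h13 := hrec (x / C1) hp0 hp1
      have h14 : (1 - x / C1) ^ (r₁ + a).choose a ≤ Real.exp (-x) := by
        have h15 : 1 - x / C1 ≤ Real.exp (-(x / C1)) := Real.one_sub_le_exp_neg _
        calc (1 - x / C1) ^ (r₁ + a).choose a ≤ Real.exp (-(x / C1)) ^ (r₁ + a).choose a :=
              pow_le_pow_left₀ (by linarith) h15 _
          _ = Real.exp (-x) := by
              rw [← Real.exp_nat_mul]
              congr 1
              rw [← hC1]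
              field_simp
      have h16 : t r₂ (r₂ + a) ≤ M / C2 := by
        rw [le_div_iff₀ hC2p, mul_comm]
        exact hIH
      have ht0 : 0 ≤ t r₂ (r₂ + a) := t_nonneg (by omega)
      have h17 : t k (k + a) ≤ x / C1 + Real.exp (-x) * (M / C2) := by
        refine h13.trans (add_le_add le_rfl ?_)
        exact mul_le_mul h14 h16 ht0 (Real.exp_pos _).le
      have h18 : Real.exp (-x) * (4 * (a : ℝ)) ^ a ≤ 0.14 := by
        have h19 : (4 * (a : ℝ)) ^ a = Real.exp (a * Real.log (4 * a)) := by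
          rw [Real.exp_nat_mul, Real.exp_log (by positivity)]
        rw [h19, ← Real.exp_add]
        have e : -x + a * Real.log (4 * a) = -2 := by rw [hx]; ring
        rw [e]
        have h20 : Real.exp (-2) * Real.exp 1 ^ 2 = 1 := by
          rw [← Real.exp_nat_mul, ← Real.exp_add]
          norm_num
        have h21 : (2.7182818283 : ℝ) ≤ Real.exp 1 := Real.exp_one_gt_d9.le
        have h22 : (7.38 : ℝ) ≤ Real.exp 1 ^ 2 := by nlinarith
        have h23 := Real.exp_pos (-2)
        nlinarith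
      unfold B
      rw [← hCC]
      have h24 : CC * (x / C1) ≤ 2 * x := by
        calc CC * (x / C1) ≤ (2 * C1) * (x / C1) := mul_le_mul_of_nonneg_right hrat1 hp0
          _ = 2 * x := by field_simp
      have h25 : CC * (Real.exp (-x) * (M / C2)) ≤ 0.14 * M := by
        calc CC * (Real.exp (-x) * (M / C2))
            ≤ ((4 * (a : ℝ)) ^ a * C2) * (Real.exp (-x) * (M / C2)) :=
              mul_le_mul_of_nonneg_right hrat2 (by positivity)
          _ = (Real.exp (-x) * (4 * (a : ℝ)) ^ a) * M := by field_simp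
          _ ≤ 0.14 * M := mul_le_mul_of_nonneg_right h18 hM0
      have h26 : CC * t k (k + a) ≤ 2 * x + 0.14 * M := by
        calc CC * t k (k + a) ≤ CC * (x / C1 + Real.exp (-x) * (M / C2)) :=
              mul_le_mul_of_nonneg_left h17 hCCp.le
          _ = CC * (x / C1) + CC * (Real.exp (-x) * (M / C2)) := by ring
          _ ≤ _ := add_le_add h24 h25
      refine h26.trans ?_
      rw [hM, hx]
      nlinarith
end Pool.Agent.R81.UDC
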