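import Pool.Agent.H688R3.TuranGenBase
import Pool.Agent.H369R2.TD.Two
import Pool.Agent.H369R2.TD.Perm

/-!
A recursion for the covering densities: an `m`-set is cut into a low and a high part; a random
family covers most low parts, the others are seen by all sets that contain the low part.
-/

set_option autoImplicit false

open Finset Filter Topology

namespace Pool.Agent.R81.UDC

open Pool.Agent.H688R3.TuranGen Pool.Agent.H369R2.TD.Two

/-! ### random subfamilies -/

section rnd

variable {α : Type} [DecidableEq α]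

/-- the probability of the subfamily `w` -/
noncomputable def wt (P : Finset α) (p : ℝ) (w : Finset α) : ℝ :=
  (∏ _i ∈ w, p) * ∏ _i ∈ P \ w, (1 - p)

theorem wt_nonneg {P : Finset α} {p : ℝ} (h0 : 0 ≤ p) (h1 : p ≤ 1) (w : Finset α) :
    0 ≤ wt P p w := by
  unfold wt
  exact mul_nonneg (prod_nonneg fun _ _ => h0) (prod_nonneg fun _ _ => by linarith)

theorem wt_sum (P : Finset α) (p : ℝ) : ∑ w ∈ P.powerset, wt P p w = 1 := by
  unfold wt
  rw [← Finset.prod_add (fun _ => p) (fun _ => 1 - p) P]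
  simp

theorem wt_mem {P : Finset α} (p : ℝ) {x : α} (hx : x ∈ P) :
    ∑ w ∈ P.powerset, (if x ∈ w then wt P p w else 0) = p := by
  have h := Finset.prod_add (fun _ => p) (fun i => if i = x then 0 else 1 - p) P
  have e1 : ∏ i ∈ P, (p + if i = x then 0 else 1 - p) = p := by
    rw [← Finset.mul_prod_erase P _ hx]
    rw [if_pos rfl, add_zero, prod_eq_one, mul_one]
    intro i hi
    rw [if_neg (mem_erase.1 hi).1]
    ring
  rw [e1] at h
  conv_rhs => rw [h]
  refine sum_congr rfl fun w hw => ?_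
  unfold wt
  split_ifs with hxw
  · congr 1
    refine prod_congr rfl fun i hi => ?_
    rw [if_neg]
    rintro rfl
    exact (mem_sdiff.1 hi).2 hxw
  · symm
    apply mul_eq_zero_of_right
    refine prod_eq_zero (mem_sdiff.2 ⟨hx, hxw⟩) ?_
    rw [if_pos rfl]

theorem wt_disj {P X : Finset α} (p : ℝ) (hX : X ⊆ P) :
    ∑ w ∈ P.powerset, (if Disjoint w X then wt P p w else 0) = (1 - p) ^ X.card := by
  have h := Finset.prod_add (fun i => if i ∈ X then 0 else p) (fun _ => 1 - p) P
  have e1 : ∏ i ∈ P, ((if i ∈ X then 0 else p) + (1 - p)) = (1 - p) ^ X.card := by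
    rw [← Finset.prod_sdiff hX]
    rw [prod_eq_one, one_mul, prod_congr rfl (g := fun _ => 1 - p), prod_const]
    · intro i hi
      rw [if_pos hi, zero_add]
    · intro i hi
      rw [if_neg (mem_sdiff.1 hi).2]
      ring
  rw [e1] at h
  rw [h]
  refine sum_congr rfl fun w hw => ?_
  unfold wt
  split_ifs with hxw
  · congr 1
    refine prod_congr rfl fun i hi => ?_
    rw [if_neg]
    exact disjoint_left.1 hxw hi
  · symm
    rw [not_disjoint_iff] at hxw
    obtain ⟨i, hi, hiX⟩ := hxw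
    apply mul_eq_zero_of_left
    refine prod_eq_zero hi ?_
    rw [if_pos hiX]

/-- a subfamily that is not worse than the mean -/
theorem exists_sub {ι κ : Type} (P : Finset α) {p : ℝ} (h0 : 0 ≤ p) (h1 : p ≤ 1) (I : Finset ι)
    (x : ι → α) (hx : ∀ i ∈ I, x i ∈ P) (J : Finset κ) (X : κ → Finset α) {C : ℕ}
    (hX : ∀ j ∈ J, X j ⊆ P ∧ (X j).card = C) :
    ∃ w ⊆ P, ((I.filter fun i => x i ∈ w).card : ℝ) + ((J.filter fun j => Disjoint w (X j)).card : ℝ)
      ≤ p * I.card + (1 - p) ^ C * J.card := by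
  by_contra hcon
  push Not at hcon
  have e1 : ∑ w ∈ P.powerset, wt P p w * ((I.filter fun i => x i ∈ w).card : ℝ) = p * I.card := by
    have : ∀ w ∈ P.powerset, wt P p w * ((I.filter fun i => x i ∈ w).card : ℝ) =
        ∑ i ∈ I, if x i ∈ w then wt P p w else 0 := by
      intro w _
      rw [card_filter]
      push_cast
      rw [mul_sum]
      refine sum_congr rfl fun i _ => ?_
      split_ifs <;> simp
    rw [sum_congr rfl this, sum_comm, sum_congr rfl (fun i hi => wt_mem p (hx i hi)), sum_const,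
      nsmul_eq_mul]
    ring
  have e2 : ∑ w ∈ P.powerset, wt P p w * ((J.filter fun j => Disjoint w (X j)).card : ℝ) =
      (1 - p) ^ C * J.card := by
    have : ∀ w ∈ P.powerset, wt P p w * ((J.filter fun j => Disjoint w (X j)).card : ℝ) =
        ∑ j ∈ J, if Disjoint w (X j) then wt P p w else 0 := by
      intro w _
      rw [card_filter]
      push_cast
      rw [mul_sum]
      refine sum_congr rfl fun i _ => ?_
      split_ifs <;> simp
    rw [sum_congr rfl this, sum_comm, sum_congr rfl (fun j hj => wt_disj p (hX j hj).1),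
      sum_congr rfl (fun j hj => by rw [(hX j hj).2]), sum_const, nsmul_eq_mul]
    ring
  have e3 : ∑ w ∈ P.powerset, wt P p w * (p * I.card + (1 - p) ^ C * J.card) =
      p * I.card + (1 - p) ^ C * J.card := by
    rw [← sum_mul, wt_sum, one_mul]
  have e4 : ∑ w ∈ P.powerset, wt P p w * (p * I.card + (1 - p) ^ C * J.card) <
      ∑ w ∈ P.powerset, wt P p w * (((I.filter fun i => x i ∈ w).card : ℝ) +
        ((J.filter fun j => Disjoint w (X j)).card : ℝ)) := by
    apply sum_lt_sum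
    · intro w hw
      exact mul_le_mul_of_nonneg_left (hcon w (mem_powerset.1 hw)).le (wt_nonneg h0 h1 w)
    · obtain ⟨w, hw, hw0⟩ : ∃ w ∈ P.powerset, wt P p w ≠ 0 := by
        by_contra h
        push Not at h
        have := wt_sum P p
        rw [sum_eq_zero h] at this
        norm_num at this
      exact ⟨w, hw, mul_lt_mul_of_pos_left (hcon w (mem_powerset.1 hw))
        (lt_of_le_of_ne (wt_nonneg h0 h1 w) (Ne.symm hw0))⟩
  simp_rw [mul_add] at e4
  rw [sum_add_distrib, sum_add_distrib, e1, e2] at e4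
  have e5 : ∑ w ∈ P.powerset, wt P p w * (p * I.card) + ∑ w ∈ P.powerset, wt P p w * ((1 - p) ^ C * J.card)
      = p * I.card + (1 - p) ^ C * J.card := by
    rw [← sum_mul, ← sum_mul, wt_sum]
    ring
  linarith

end rnd

/-! ### relabelling -/

open Classical in
/-- a relabelling for which few pairs have their high part in the family -/
theorem exists_perm {n d r : ℕ} {δ : ℝ} (F : Finset (Finset (Fin n))) (hF : ∀ e ∈ F, e.card = r)
    (hc : (F.card : ℝ) ≤ δ * (n.choose r : ℝ)) :
    ∃ π : Equiv.Perm (Fin n),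
      (((Pr n d r).filter fun q => q.2.map π.toEmbedding ∈ F).card : ℝ) ≤ δ * (Pr n d r).card := by
  by_contra hcon
  push Not at hcon
  have h1 := sum_card_le (Ω := Equiv.Perm (Fin n)) (Pr n d r)
    (fun π => (Pr n d r).filter fun q => q.2.map π.toEmbedding ∈ F) (c := δ)
    (fun q => univ.filter fun π : Equiv.Perm (Fin n) => q.2.map π.toEmbedding ∈ F)
    (fun q hq => Pool.Agent.H369R2.TD.perm_count F hF hc q.2 (mem_Pr.1 hq).2.1)
    (fun π q => by
      rw [mem_filter, mem_filter]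
      simp)
  have h2 : ∑ _π : Equiv.Perm (Fin n), δ * ((Pr n d r).card : ℝ) <
      ∑ π : Equiv.Perm (Fin n), (((Pr n d r).filter fun q => q.2.map π.toEmbedding ∈ F).card : ℝ) :=
    sum_lt_sum_of_nonempty univ_nonempty fun π _ => hcon π
  rw [sum_const, nsmul_eq_mul, card_univ] at h2
  linarith

/-! ### the recursion -/

open Classical in
theorem c_rec {a r₁ r₂ : ℕ} {p : ℝ} (h0 : 0 ≤ p) (h1 : p ≤ 1) (n : ℕ) :
    c (r₁ + a + r₂) (r₁ + r₂ + 2 * a) n ≤
      (p + (1 - p) ^ (r₁ + a).choose a * t r₂ (r₂ + a)) * (n.choose (r₁ + a + r₂) : ℝ) := by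
  obtain ⟨F, hF, hFc⟩ := exists_cov (r := r₂) (m := r₂ + a) (by omega) n
  have hFc' : (F.card : ℝ) ≤ t r₂ (r₂ + a) * (n.choose r₂ : ℝ) := by
    rw [hFc]; exact c_le_t _ _ _
  obtain ⟨π, hπ⟩ := exists_perm (d := r₁ + a) F hF.1 hFc'
  set T2 : Finset (Finset (Fin n) × Finset (Fin n)) :=
    (Pr n (r₁ + a) r₂).filter fun q => q.2.map π.toEmbedding ∈ F with hT2
  have ht0 : 0 ≤ t r₂ (r₂ + a) := t_nonneg (by omega)
  obtain ⟨w, hw, hwc⟩ := exists_sub (powersetCard r₁ (univ : Finset (Fin n))) h0 h1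
    (Pr n r₁ (r₂ + a)) (fun q => q.1)
    (fun q hq => mem_powersetCard.2 ⟨subset_univ _, (mem_Pr.1 hq).1⟩)
    T2 (fun q => powersetCard r₁ q.1) (C := (r₁ + a).choose a)
    (fun q hq => ⟨powersetCard_mono (subset_univ _), by
      rw [card_powersetCard, (mem_Pr.1 (mem_filter.1 hq).1).1, Nat.choose_symm_add]⟩)
  set E1 := (Pr n r₁ (r₂ + a)).filter fun q => q.1 ∈ w with hE1
  set E2 := T2.filter fun q => Disjoint w (powersetCard r₁ q.1) with hE2
  set E : Finset (Finset (Fin n)) := E1.image (fun q => q.1 ∪ q.2) ∪ E2.image (fun q => q.1 ∪ q.2)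
    with hE
  have hcov : Cov (r₁ + a + r₂) (r₁ + r₂ + 2 * a) E := by
    constructor
    · intro e he
      rw [hE, mem_union, mem_image, mem_image] at he
      rcases he with ⟨q, hq, rfl⟩ | ⟨q, hq, rfl⟩
      · rw [card_union_of_mem_Pr (mem_filter.1 hq).1]; ring
      · rw [card_union_of_mem_Pr (mem_filter.1 (mem_filter.1 hq).1).1]
    · intro S hS
      obtain ⟨q, hq, hqS⟩ := exists_pair (a := r₁ + a) (b := r₂ + a) S (by omega)
      obtain ⟨q1, q2, q3⟩ := mem_Pr.1 hq
      by_cases hcase : ∃ W ∈ w, W ⊆ q.1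
      · obtain ⟨W, hW, hWq⟩ := hcase
        refine ⟨W ∪ q.2, ?_, ?_⟩
        · rw [hE, mem_union, mem_image]
          left
          refine ⟨(W, q.2), ?_, rfl⟩
          rw [hE1, mem_filter, mem_Pr]
          exact ⟨⟨(mem_powersetCard.1 (hw hW)).2, q2, fun x hx y hy => q3 x (hWq hx) y hy⟩, hW⟩
        · rw [← hqS]
          exact union_subset_union hWq (Subset.refl _)
      · obtain ⟨U, hU, hUq⟩ := hF.2 (q.2.map π.toEmbedding) (by rw [card_map, q2])
        obtain ⟨U', hU', rfl⟩ := Finset.subset_map_iff.mp hUq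
        refine ⟨q.1 ∪ U', ?_, ?_⟩
        · rw [hE, mem_union, mem_image, mem_image]
          right
          refine ⟨(q.1, U'), ?_, rfl⟩
          rw [hE2, mem_filter, hT2, mem_filter, mem_Pr]
          refine ⟨⟨⟨q1, ?_, fun x hx y hy => q3 x hx y (hU' hy)⟩, hU⟩, ?_⟩
          · have := hF.1 _ hU
            rwa [card_map] at this
          · rw [disjoint_left]
            intro W hW hWq
            exact hcase ⟨W, hW, (mem_powersetCard.1 hWq).1⟩
        · rw [← hqS]
          exact union_subset_union (Subset.refl _) hU'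
  refine (c_le_card hcov).trans ?_
  have hb1 : ((Pr n r₁ (r₂ + a)).card : ℝ) ≤ (n.choose (r₁ + a + r₂) : ℝ) := by
    have := Pr_card_le n r₁ (r₂ + a)
    have e : r₁ + (r₂ + a) = r₁ + a + r₂ := by ring
    rw [e] at this
    exact_mod_cast this
  have hb2 : ((Pr n (r₁ + a) r₂).card : ℝ) ≤ (n.choose (r₁ + a + r₂) : ℝ) := by
    exact_mod_cast Pr_card_le n (r₁ + a) r₂
  have hEc : (E.card : ℝ) ≤ (E1.card : ℝ) + (E2.card : ℝ) := by
    have : E.card ≤ E1.card + E2.card :=
      (card_union_le _ _).trans (add_le_add card_image_le card_image_le)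
    exact_mod_cast this
  have hp1 : 0 ≤ (1 - p) ^ (r₁ + a).choose a := pow_nonneg (by linarith) _
  calc (E.card : ℝ) ≤ (E1.card : ℝ) + (E2.card : ℝ) := hEc
    _ ≤ p * (Pr n r₁ (r₂ + a)).card + (1 - p) ^ (r₁ + a).choose a * T2.card := hwc
    _ ≤ p * (n.choose (r₁ + a + r₂) : ℝ) + (1 - p) ^ (r₁ + a).choose a *
          (t r₂ (r₂ + a) * (n.choose (r₁ + a + r₂) : ℝ)) := by
        refine add_le_add (mul_le_mul_of_nonneg_left hb1 h0) (mul_le_mul_of_nonneg_left ?_ hp1)
        exact hπ.trans (mul_le_mul_of_nonneg_left hb2 ht0)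
    _ = _ := by ring

/-- **The recursion.** -/
theorem t_rec {a r₁ r₂ : ℕ} {p : ℝ} (h0 : 0 ≤ p) (h1 : p ≤ 1) :
    t (r₁ + a + r₂) (r₁ + r₂ + 2 * a) ≤ p + (1 - p) ^ (r₁ + a).choose a * t r₂ (r₂ + a) := by
  refine le_of_tendsto (tendsto_c (r₁ + a + r₂) (r₁ + r₂ + 2 * a)) ?_
  filter_upwards [eventually_ge_atTop (r₁ + a + r₂)] with n hn
  rw [div_le_iff₀ (choose_pos' hn)]
  exact c_rec h0 h1 n

end Pool.Agent.R81.UDC
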